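import Mathlib

/-!
# Algebra: polynomials of operators, dual bases
-/

set_option autoImplicit false

namespace Pool.Agent.E8helper1.TB

open Module Polynomial

theorem end_pow_smul {K V : Type*} [Field K] [AddCommGroup V] [Module K V] (Φ : Module.End K V)
    {z : V} {α : K} (h : Φ z = α • z) (m : ℕ) : (Φ ^ m) z = α ^ m • z := by
  induction m with
  | zero => rw [pow_zero, pow_zero, one_smul]; rfl
  | succ m ih =>
    rw [pow_succ', pow_succ', Module.End.mul_apply, ih, map_smul, h, smul_smul, mul_comm]

theorem aeval_apply_sum {K V : Type*} [Field K] [AddCommGroup V] [Module K V]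
    (Φ : Module.End K V) (R : Polynomial ℤ) (z : V) :
    Polynomial.aeval Φ R z = R.sum fun n c => (c : K) • (Φ ^ n) z := by
  rw [Polynomial.aeval_eq_sum_range, Polynomial.sum_over_range]
  · rw [LinearMap.sum_apply]
    refine Finset.sum_congr rfl fun i _ => ?_
    rw [LinearMap.smul_apply, Int.cast_smul_eq_zsmul]
  · intro n
    rw [Int.cast_zero, zero_smul]

theorem aeval_eig {K V : Type*} [Field K] [AddCommGroup V] [Module K V] (Φ : Module.End K V)
    {z : V} {α : ℤ} (h : Φ z = (α : K) • z) (R : Polynomial ℤ) :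
    Polynomial.aeval Φ R z = ((R.eval α : ℤ) : K) • z := by
  rw [aeval_apply_sum, Polynomial.eval_eq_sum, Polynomial.sum, Polynomial.sum, Int.cast_sum,
    Finset.sum_smul]
  refine Finset.sum_congr rfl fun i _ => ?_
  rw [end_pow_smul Φ h, smul_smul, Int.cast_mul, Int.cast_pow]

theorem exists_strip (P : Polynomial ℤ) (hP : P ≠ 0) (α : ℤ) :
    ∃ (μ : ℕ) (R : Polynomial ℤ), P = (X - C α) ^ μ * R ∧ R.eval α ≠ 0 := by
  obtain ⟨R, h1, h2⟩ := Polynomial.exists_eq_pow_rootMultiplicity_mul_and_not_dvd P hP α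
  exact ⟨_, R, h1, fun h => h2 (Polynomial.dvd_iff_isRoot.2 h)⟩

/-- An operator `Φ - α` which is injective on a stable subspace can be cancelled. -/
theorem cancel {K V : Type*} [Field K] [AddCommGroup V] [Module K V] (Φ : Module.End K V) (α : ℤ)
    (S : Submodule K V) (hS : ∀ x ∈ S, Φ x ∈ S) (hinj : ∀ x ∈ S, Φ x = (α : K) • x → x = 0)
    (μ : ℕ) (R : Polynomial ℤ) {x : V} (hx : x ∈ S)
    (h : Polynomial.aeval Φ ((X - C α) ^ μ * R) x = 0) : Polynomial.aeval Φ R x = 0 := by
  have hpow : ∀ (m : ℕ) (y : V), y ∈ S → (Φ ^ m) y ∈ S := by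
    intro m
    induction m with
    | zero => intro y hy; exact hy
    | succ m ih => intro y hy; rw [pow_succ', Module.End.mul_apply]; exact hS _ (ih y hy)
  have hpoly : ∀ (Q : Polynomial ℤ) (y : V), y ∈ S → Polynomial.aeval Φ Q y ∈ S := by
    intro Q y hy
    rw [aeval_apply_sum, Polynomial.sum]
    exact S.sum_mem fun i _ => S.smul_mem _ (hpow i y hy)
  induction μ with
  | zero => rwa [pow_zero, one_mul] at h
  | succ μ ih =>
    refine ih ?_
    have h1 := hpoly ((X - C α) ^ μ * R) x hx
    refine hinj _ h1 ?_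
    have h2 : Polynomial.aeval Φ ((X - C α) ^ (μ + 1) * R) =
        (Φ - algebraMap ℤ (Module.End K V) α) * Polynomial.aeval Φ ((X - C α) ^ μ * R) := by
      rw [pow_succ', mul_assoc, map_mul, map_sub, aeval_X, aeval_C]
    rw [h2, Module.End.mul_apply, LinearMap.sub_apply, sub_eq_zero] at h
    rw [h]
    rw [algebraMap_int_eq, eq_intCast, Module.End.intCast_apply, Int.cast_smul_eq_zsmul]

/-- Dual bases of a pairing of rational vector spaces. -/
theorem exists_dual {r s : ℕ} (P : Fin s → Fin r → ℚ)
    (h : ∀ x : Fin r → ℚ, (∀ a, ∑ b, P a b * x b = 0) → x = 0) (b : Fin r) :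
    ∃ y : Fin s → ℚ, ∀ b', ∑ a, y a * P a b' = if b' = b then 1 else 0 := by
  classical
  have hsurj : Function.Surjective
      (fun y : Fin s → ℚ => fun b' => ∑ a, y a * P a b') := by
    have key : LinearMap.range (Matrix.vecMulLinear (Matrix.of P)) = ⊤ := by
      by_contra hne
      obtain ⟨f, hf, hle⟩ := Submodule.exists_le_ker_of_lt_top _ (lt_top_iff_ne_top.2 hne)
      apply hf
      have hfx : ∀ v, f v = ∑ i, v i * f (Pi.single i 1) := by
        intro v
        conv_lhs => rw [pi_eq_sum_univ v]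
        rw [map_sum]
        refine Finset.sum_congr rfl fun i _ => ?_
        rw [map_smul, smul_eq_mul]
        congr 2
        ext j
        rw [Pi.single_apply]
        by_cases hij : i = j
        · rw [if_pos hij, if_pos hij.symm]
        · rw [if_neg hij, if_neg (Ne.symm hij)]
      have h0 : (fun i => f (Pi.single i 1)) = (0 : Fin r → ℚ) := by
        refine h _ fun a => ?_
        have h1 : Matrix.vecMulLinear (Matrix.of P) (Pi.single a 1) ∈
            LinearMap.range (Matrix.vecMulLinear (Matrix.of P)) := ⟨_, rfl⟩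
        have h2 := hle h1
        rw [LinearMap.mem_ker, hfx] at h2
        rw [← h2]
        refine Finset.sum_congr rfl fun i _ => ?_
        congr 1
        simp [Matrix.vecMulLinear]
      refine LinearMap.ext fun v => ?_
      rw [hfx, LinearMap.zero_apply]
      refine Finset.sum_eq_zero fun i _ => ?_
      have := congrFun h0 i
      simp only [Pi.zero_apply] at this
      rw [this, mul_zero]
    intro z
    obtain ⟨y, hy⟩ := (LinearMap.range_eq_top.1 key) z
    refine ⟨y, ?_⟩
    rw [← hy]
    ext b'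
    simp [Matrix.vecMulLinear, Matrix.vecMul, dotProduct]
  obtain ⟨y, hy⟩ := hsurj (fun b' => if b' = b then 1 else 0)
  exact ⟨y, fun b' => congrFun hy b'⟩

/-- The power of one minus an element. -/
theorem one_sub_pow {A : Type*} [Ring A] (p : A) (t : ℕ) : ∃ w : A, (1 - p) ^ t = 1 - p * w := by
  induction t with
  | zero => exact ⟨0, by rw [pow_zero, mul_zero, sub_zero]⟩
  | succ t ih =>
    obtain ⟨w, hw⟩ := ih
    refine ⟨w + 1 - p * w, ?_⟩
    rw [pow_succ', hw]
    noncomm_ring

end Pool.Agent.E8helper1.TB
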