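import Pool.Agent.E8helper1.TB.Dual

/-!
# The Tate conjecture and nilpotence imply the conjectures of Beilinson and Parshin
-/

open CategoryTheory AlgebraicGeometry

universe u

namespace Pool.Agent.E8helper1.TB

open Module
open Pool.Agent.H914 Pool.Agent.H914.VarClass Pool.Agent.H914.VarClass.Obj
  Pool.Agent.H914.WeilCohomology
open Pool.Agent.Y129 (pw)
open Pool.Agent.E8helper1.TP (Gal hdim alg)
open Pool.Agent.E8helper1.TPQ (IsFrobenius HomNum IsRational)

variable {k : Type u} [Field k] {𝒱 : VarClass k} {ops : CycleOps 𝒱}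
  {W : WeilCohomology.{u, 0} ops} {X : 𝒱.Obj}

section ring

variable {A : Type*} [Ring A] [Algebra ℚ A]

theorem pow_mul_eig {a e : A} {l : ℚ} (h : a * e = l • e) (t : ℕ) : a ^ t * e = l ^ t • e := by
  induction t with
  | zero => rw [pow_zero, pow_zero, one_mul, one_smul]
  | succ t ih => rw [pow_succ, mul_assoc, h, mul_smul_comm, ih, smul_smul, pow_succ, mul_comm]

theorem mul_pow_eig {a e : A} {l : ℚ} (h : e * a = l • e) (t : ℕ) : e * a ^ t = l ^ t • e := by
  induction t with
  | zero => rw [pow_zero, pow_zero, mul_one, one_smul]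
  | succ t ih => rw [pow_succ', ← mul_assoc, h, smul_mul_assoc, ih, smul_smul, pow_succ']

end ring

variable (G : Gal W X) (C : Chow W X) {q : ℕ} {γ : G.Γ} (hC : IsChow G C q γ)
  (hF : IsFinite G q γ)

include hC in
theorem real_pow (n s : ℕ) (x : W.H (pw X n)) : C.real n (C.F n ^ s) x = G.ρ n (γ ^ s) x := by
  induction s generalizing x with
  | zero =>
    rw [pow_zero, pow_zero, map_one, (G.act n).one]
    rfl
  | succ s ih =>
    rw [pow_succ, pow_succ, map_mul, Module.End.mul_apply, ih, hC.frob, (G.act n).comp]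

theorem iter_eq {n : ℕ} {g : G.Γ} {Φ : Module.End W.K (W.H (pw X n))}
    (hΦ : ∀ x, Φ x = G.ρ n g x) (m : ℕ) (x : W.H (pw X n)) :
    (Φ ^ m) x = (G.ρ n g)^[m] x := by
  induction m generalizing x with
  | zero => rfl
  | succ m ih =>
    rw [pow_succ, Module.End.mul_apply, Function.iterate_succ_apply, ih, hΦ]

include hF in
theorem q_gt : 1 < q := hF.prime_pow.one_lt

/-- The polynomials. -/
theorem exists_poly (hF : IsFinite G q γ) {n : ℕ} (hT : G.TateConj n) {s : ℕ} (hs : 1 ≤ s)
    {Φ P : Module.End W.K (W.H (pw X n))}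
    (hΦ : ∀ x, Φ x = G.ρ n (γ ^ s) x) (hcomm : ∀ x, Φ (P x) = P (Φ x))
    (hP1 : ∀ j, j ≤ (pw X n).dim → ∀ c ∈ Submodule.span W.K (alg W (pw X n) j), P c = c)
    (hP2 : ∀ x, P (P x) = P x)
    (hP3 : ∀ i, ∀ x ∈ W.gr (pw X n) i, P x ∈ W.gr (pw X n) i) {i : ℕ}
    (hi : i ≤ 2 * (pw X n).dim) :
    ∃ R : Polynomial ℤ, (∀ h ∈ W.gr (pw X n) i, Polynomial.aeval Φ R (h - P h) = 0) ∧
      ∀ c : ℕ, R.eval ((q : ℤ) ^ (s * c)) ≠ 0 := by
  obtain ⟨Q, hQ1, -, hQ3, -, hQ5⟩ := hF.frob s hs n i
  have hq := q_gt G hF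
  have hgr : ∀ h ∈ W.gr (pw X n) i, h - P h ∈ W.gr (pw X n) i := fun h hh =>
    Submodule.sub_mem _ hh (hP3 i h hh)
  have hkill : ∀ h ∈ W.gr (pw X n) i, Polynomial.aeval Φ Q h = 0 := by
    intro h hh
    rw [aeval_apply_sum, ← hQ5 h hh, Polynomial.sum, Polynomial.sum]
    refine Finset.sum_congr rfl fun m _ => ?_
    rw [iter_eq G hΦ]
  have hroot : ∀ c : ℕ, Q.eval ((q : ℤ) ^ (s * c)) = 0 → i = 2 * c := by
    intro c h0
    have h1 := hQ3 (((q : ℤ) ^ (s * c) : ℤ) : ℂ) (by
      have : (Polynomial.aeval (((q : ℤ) ^ (s * c) : ℤ) : ℂ) Q : ℂ) =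
          ((Q.eval ((q : ℤ) ^ (s * c)) : ℤ) : ℂ) := by
        rw [Polynomial.aeval_def, eq_comm]
        have := Polynomial.hom_eval₂ Q (RingHom.id ℤ) (Int.castRingHom ℂ) ((q : ℤ) ^ (s * c))
        rw [Polynomial.eval₂_id] at this
        simpa using this
      rw [this, h0, Int.cast_zero])
    have h2 : ((q : ℝ) ^ (s * c)) ^ 2 = ((q : ℝ) ^ s) ^ i := by
      have h3 : ‖(((q : ℤ) ^ (s * c) : ℤ) : ℂ)‖ = (q : ℝ) ^ (s * c) := by
        push_cast
        rw [norm_pow, Complex.norm_natCast]
      rw [h3] at h1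
      rw [h1]
      push_cast
      rfl
    rw [← pow_mul, ← pow_mul] at h2
    have h4 : (q : ℝ) ^ (s * c * 2) = (q : ℝ) ^ (s * i) := h2
    have h5 : q ^ (s * c * 2) = q ^ (s * i) := by exact_mod_cast h4
    have h6 := Nat.pow_right_injective (by omega : 2 ≤ q) h5
    have h7 : s * (c * 2) = s * i := by rw [← mul_assoc]; exact h6
    have h8 := Nat.eq_of_mul_eq_mul_left (by omega : 0 < s) h7
    omega
  by_cases hev : ∃ j, i = 2 * j
  · obtain ⟨j, rfl⟩ := hev
    obtain ⟨μ, R, hR1, hR2⟩ := exists_strip Q hQ1.ne_zero ((q : ℤ) ^ (s * j))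
    refine ⟨R, fun h hh => ?_, fun c h0 => ?_⟩
    · refine cancel Φ ((q : ℤ) ^ (s * j))
        ((W.gr (pw X n) (2 * j)).map (LinearMap.id - P)) ?_ ?_ μ R
        ⟨h, hh, rfl⟩ ?_
      · rintro _ ⟨x, hx, rfl⟩
        refine ⟨Φ x, ?_, ?_⟩
        · rw [hΦ]
          exact (G.act n).deg _ _ _ hx
        · change Φ x - P (Φ x) = Φ (x - P x)
          rw [map_sub, hcomm]
      · rintro _ ⟨x, hx, rfl⟩ he
        change Φ (x - P x) = _ • (x - P x) at he
        change x - P x = 0
        have h1 : x - P x ∈ G.tate n j := by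
          refine mem_tate G hF hs (hgr x hx) ?_
          rw [← hΦ, he]
          congr 1
          push_cast
          rfl
        have h2 := hP1 j (by omega) _ (hT j _ h1)
        rw [← h2, map_sub, hP2, sub_self]
      · rw [← hR1]
        exact hkill _ (hgr h hh)
    · by_cases hcj : c = j
      · rw [hcj] at h0
        exact hR2 h0
      · have h1 := hroot c (by rw [hR1, Polynomial.eval_mul, h0, mul_zero])
        omega
  · refine ⟨Q, fun h hh => hkill _ (hgr h hh), fun c h0 => hev ⟨c, hroot c h0⟩⟩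

include hC hF in
/-- **The argument of Soulé, Geisser and Kahn.** -/
theorem core (hnil : C.Nilpotence) {n : ℕ} (hT : G.TateConj n) (hH : HomNum W (pw X n)) :
    C.RatHom n ∧ C.Parshin n := by
  classical
  obtain ⟨d, hd⟩ : ∃ d, d = (pw X n).dim := ⟨_, rfl⟩
  have hq := q_gt G hF
  have hdual : ∀ j : Fin (d + 1), ∃ (r : ℕ) (x : Fin r → C.M n j 0)
      (y : Fin r → C.M n ((pw X n).dim - j) 0),
      LinearIndependent W.K (fun a => C.reg n j (x a)) ∧
      alg W (pw X n) j = {x' | ∃ a : Fin r → ℚ, x' = ∑ i, (a i : W.K) • C.reg n j (x i)} ∧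
      ∀ a b, W.tr (pw X n) (C.reg n _ (y a) * C.reg n j (x b)) = if b = a then 1 else 0 := by
    intro j
    obtain ⟨r, c, y, h1, h2, h3, h4, h5⟩ := exists_dual_classes hH
      (show (j : ℕ) ≤ (pw X n).dim by have := j.2; omega)
    have h2' : ∀ a, ∃ x, C.reg n j x = c a := by
      intro a
      have := h2 a
      rwa [← hC.range] at this
    have h3' : ∀ a, ∃ x, C.reg n ((pw X n).dim - j) x = y a := by
      intro a
      have := h3 a
      rwa [← hC.range] at this
    choose x hx using h2'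
    choose y' hy' using h3'
    refine ⟨r, x, y', ?_, ?_, ?_⟩
    · have : (fun a => C.reg n j (x a)) = c := funext hx
      rw [this]
      exact h1
    · rw [h4]
      simp only [hx]
    · intro a b
      rw [hx, hy']
      exact h5 a b
  choose r x y hx1 hx2 hx3 using hdual
  obtain ⟨p, hp⟩ : ∃ p : C.A n, p = ∑ j : Fin (d + 1), ∑ a, C.ext n j (x j a) (y j a) := ⟨_, rfl⟩
  -- the operator on the cohomology
  obtain ⟨P, hP⟩ : ∃ P, P = C.real n p := ⟨_, rfl⟩
  have hPx : ∀ h, P h = ∑ j : Fin (d + 1), ∑ a,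
      W.tr (pw X n) (C.reg n _ (y j a) * h) • C.reg n j (x j a) := by
    intro h
    rw [hP, hp, map_sum, LinearMap.sum_apply]
    refine Finset.sum_congr rfl fun j _ => ?_
    rw [map_sum, LinearMap.sum_apply]
    exact Finset.sum_congr rfl fun a _ => hC.real_ext _ _ _ _ _
  have hreg : ∀ c (z : C.M n c 0), C.reg n c z ∈ W.gr (pw X n) (2 * c) := by
    intro c z
    refine alg_gr ?_
    rw [← hC.range]
    exact ⟨z, rfl⟩
  have hzero : ∀ (j : Fin (d + 1)) (a : Fin (r j)) (i : ℕ) (h : W.H (pw X n)),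
      h ∈ W.gr (pw X n) i → i ≠ 2 * j → W.tr (pw X n) (C.reg n _ (y j a) * h) = 0 := by
    intro j a i h hh hne
    have := j.2
    exact W.tr_eq_zero (W.mul_mem (hreg _ _) hh) (by omega)
  have hP1 : ∀ j, j ≤ (pw X n).dim → ∀ c ∈ Submodule.span W.K (alg W (pw X n) j), P c = c := by
    intro j hj c hc
    obtain ⟨j0, rfl⟩ : ∃ j0 : Fin (d + 1), (j0 : ℕ) = j := ⟨⟨j, by omega⟩, rfl⟩
    have hb : ∀ b, P (C.reg n j0 (x j0 b)) = C.reg n j0 (x j0 b) := by
      intro b
      rw [hPx, Finset.sum_eq_single j0]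
      · rw [Finset.sum_eq_single b]
        · rw [hx3, if_pos rfl, one_smul]
        · intro a _ ha
          rw [hx3, if_neg (Ne.symm ha), zero_smul]
        · intro h
          exact absurd (Finset.mem_univ b) h
      · intro j _ hne
        refine Finset.sum_eq_zero fun a _ => ?_
        rw [hzero j a (2 * j0) _ (hreg _ _) (fun h => hne (Fin.ext (by omega))), zero_smul]
      · intro h
        exact absurd (Finset.mem_univ j0) h
    induction hc using Submodule.span_induction with
    | mem c hc =>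
      rw [hx2 j0] at hc
      obtain ⟨m, rfl⟩ := hc
      rw [map_sum]
      refine Finset.sum_congr rfl fun i _ => ?_
      rw [map_smul, hb]
    | zero => exact map_zero _
    | add a b _ _ ha hb' => rw [map_add, ha, hb']
    | smul l a _ ha => rw [map_smul, ha]
  have halg : ∀ (j : Fin (d + 1)) (a : Fin (r j)),
      C.reg n j (x j a) ∈ Submodule.span W.K (alg W (pw X n) j) := by
    intro j a
    refine Submodule.subset_span ?_
    rw [← hC.range]
    exact ⟨_, rfl⟩
  have hP2 : ∀ h, P (P h) = P h := by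
    intro h
    conv_lhs => rw [hPx h]
    rw [map_sum]
    conv_rhs => rw [hPx h]
    refine Finset.sum_congr rfl fun j _ => ?_
    rw [map_sum]
    refine Finset.sum_congr rfl fun a _ => ?_
    have := j.2
    rw [map_smul, hP1 j (by omega) _ (halg j a)]
  have hP3 : ∀ i, ∀ h ∈ W.gr (pw X n) i, P h ∈ W.gr (pw X n) i := by
    intro i h hh
    rw [hPx]
    refine Submodule.sum_mem _ fun j _ => Submodule.sum_mem _ fun a _ => ?_
    by_cases hi : i = 2 * j
    · rw [hi]
      exact Submodule.smul_mem _ _ (hreg _ _)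
    · rw [hzero j a i h hh hi, zero_smul]
      exact Submodule.zero_mem _
  -- the main point
  have main : ∀ c r' (z : C.M n c r'), ∃ w : C.M n c r', z = C.act n c r' p w := by
    intro c r' z
    obtain ⟨s0, hs0, hz⟩ := hC.fix n c r' z
    choose s1 hs1 h1a h1b using fun (j : Fin (d + 1)) (a : Fin (r j)) =>
      hC.fix_ext n j (x j a) (y j a)
    obtain ⟨s, hs⟩ : ∃ s, s = s0 * ∏ j : Fin (d + 1), ∏ a, s1 j a := ⟨_, rfl⟩
    have hs1' : 1 ≤ ∏ j : Fin (d + 1), ∏ a, s1 j a :=
      Finset.one_le_prod' fun j _ => Finset.one_le_prod' fun a _ => hs1 j a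
    have hspos : 1 ≤ s := by
      rw [hs]
      exact Nat.mul_pos hs0 hs1'
    obtain ⟨f, hf⟩ : ∃ f, f = C.F n ^ s := ⟨_, rfl⟩
    have hfz : C.act n c r' f z = (((q : ℤ) ^ (s * c) : ℤ) : ℚ) • z := by
      have e1 : f = (C.F n ^ s0) ^ (∏ j : Fin (d + 1), ∏ a, s1 j a) := by
        rw [hf, hs, pow_mul]
      rw [e1, map_pow, end_pow_smul _ hz, ← pow_mul]
      congr 1
      push_cast
      congr 1
      rw [hs]
      ring
    have hfe : ∀ (j : Fin (d + 1)) (a : Fin (r j)),
        f * C.ext n j (x j a) (y j a) = C.ext n j (x j a) (y j a) * f := by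
      intro j a
      obtain ⟨t, ht⟩ : s1 j a ∣ s := by
        rw [hs]
        exact Dvd.dvd.mul_left ((Finset.dvd_prod_of_mem (fun a => s1 j a) (Finset.mem_univ a)).trans
          (Finset.dvd_prod_of_mem (fun j => ∏ a, s1 j a) (Finset.mem_univ j))) _
      have e1 : f = (C.F n ^ s1 j a) ^ t := by
        rw [hf, ht, pow_mul]
      rw [e1, pow_mul_eig (h1a j a), mul_pow_eig (h1b j a)]
    have hfp : f * p = p * f := by
      rw [hp, Finset.mul_sum, Finset.sum_mul]
      refine Finset.sum_congr rfl fun j _ => ?_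
      rw [Finset.mul_sum, Finset.sum_mul]
      exact Finset.sum_congr rfl fun a _ => hfe j a
    have hΦ : ∀ h, C.real n f h = G.ρ n (γ ^ s) h := by
      intro h
      rw [hf]
      exact real_pow G C hC n s h
    have hcomm : ∀ h, C.real n f (P h) = P (C.real n f h) := by
      intro h
      rw [hP, ← Module.End.mul_apply, ← Module.End.mul_apply, ← map_mul, ← map_mul, hfp]
    choose R hR1 hR2 using fun i : Fin (2 * d + 1) =>
      exists_poly G hF hT hspos hΦ hcomm hP1 hP2 hP3 (i := i) (by have := i.2; omega)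
    obtain ⟨Q, hQ⟩ : ∃ Q : Polynomial ℤ, Q = ∏ i : Fin (2 * d + 1), R i := ⟨_, rfl⟩
    have hQ0 : Q.eval ((q : ℤ) ^ (s * c)) ≠ 0 := by
      rw [hQ, Polynomial.eval_prod]
      exact Finset.prod_ne_zero_iff.2 fun i _ => hR2 i c
    have hQk : ∀ h, Polynomial.aeval (C.real n f) Q (h - P h) = 0 := by
      have hle : (⊤ : Submodule W.K (W.H (pw X n))) ≤
          LinearMap.ker ((Polynomial.aeval (C.real n f) Q) ∘ₗ (LinearMap.id - P)) := by
        rw [← (W.isInternal (pw X n)).submodule_iSup_eq_top]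
        refine iSup_le fun i h hh => ?_
        rw [LinearMap.mem_ker]
        change Polynomial.aeval (C.real n f) Q (h - P h) = 0
        by_cases hi : i ≤ 2 * d
        · obtain ⟨i0, rfl⟩ : ∃ i0 : Fin (2 * d + 1), (i0 : ℕ) = i := ⟨⟨i, by omega⟩, rfl⟩
          have e1 : Q = (∏ i ∈ Finset.univ.erase i0, R i) * R i0 := by
            rw [hQ, Finset.prod_erase_mul _ _ (Finset.mem_univ i0)]
          rw [e1, map_mul, Module.End.mul_apply, hR1 i0 h hh, map_zero]
        · have h0 : h = 0 := by
            have := W.gr_eq_bot (pw X n) i (by omega)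
            rw [this] at hh
            simpa using hh
          rw [h0, map_zero, sub_zero, map_zero]
      intro h
      exact hle (Submodule.mem_top (x := h))
    -- nilpotence
    have hu : C.real n (Polynomial.aeval f Q * (1 - p)) = 0 := by
      refine LinearMap.ext fun h => ?_
      rw [map_mul, map_sub, map_one, Module.End.mul_apply, LinearMap.zero_apply]
      have e1 : C.real n (Polynomial.aeval f Q) = Polynomial.aeval (C.real n f) Q := by
        have := Polynomial.aeval_algHom_apply (C.real n).toIntAlgHom f Q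
        exact this.symm
      rw [e1]
      have e2 := hQk h
      rw [hP] at e2
      exact e2
    obtain ⟨t, ht⟩ := hnil n _ hu
    have hcom : Commute (Polynomial.aeval f Q) (1 - p) := by
      have h1 : Commute f (1 - p) := by
        refine Commute.sub_right (Commute.one_right f) ?_
        exact hfp
      rw [Polynomial.aeval_eq_sum_range]
      exact Commute.sum_left _ _ _ fun i _ => (h1.pow_left i).smul_left _
    rw [hcom.mul_pow, (hcom.pow_pow t t).eq] at ht
    have hz2 := congrArg (fun a => C.act n c r' a z) ht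
    simp only [map_mul, map_zero, LinearMap.zero_apply, Module.End.mul_apply] at hz2
    have hz3 : C.act n c r' (Polynomial.aeval f Q ^ t) z =
        (((Q.eval ((q : ℤ) ^ (s * c)) : ℤ) : ℚ)) ^ t • z := by
      rw [map_pow]
      refine end_pow_smul _ ?_ t
      have e1 : C.act n c r' (Polynomial.aeval f Q) =
          Polynomial.aeval (C.act n c r' f) Q := by
        have := Polynomial.aeval_algHom_apply ((C.act n c r').toRingHom.toIntAlgHom) f Q
        exact this.symm
      rw [e1]
      exact aeval_eig _ hfz Q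
    rw [hz3, map_smul] at hz2
    have hne : (((Q.eval ((q : ℤ) ^ (s * c)) : ℤ) : ℚ)) ^ t ≠ 0 :=
      pow_ne_zero _ (by exact_mod_cast hQ0)
    have hz4 := (smul_eq_zero.1 hz2).resolve_left hne
    obtain ⟨w, hw⟩ := one_sub_pow p t
    rw [hw, map_sub, map_one, LinearMap.sub_apply, sub_eq_zero, map_mul,
      Module.End.mul_apply] at hz4
    exact ⟨_, hz4⟩
  have hact : ∀ c r' (w : C.M n c r'), C.act n c r' p w =
      ∑ j : Fin (d + 1), ∑ a, C.act n c r' (C.ext n j (x j a) (y j a)) w := by
    intro c r' w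
    rw [hp, map_sum, LinearMap.sum_apply]
    refine Finset.sum_congr rfl fun j _ => ?_
    rw [map_sum, LinearMap.sum_apply]
  refine ⟨fun c => ?_, fun c r' hr z => ?_⟩
  · refine (injective_iff_map_eq_zero (C.reg n c)).2 fun z hz => ?_
    obtain ⟨w, hw⟩ := main c 0 z
    rw [hact] at hw
    by_cases hcd : c ≤ d
    · obtain ⟨j0, rfl⟩ : ∃ j0 : Fin (d + 1), (j0 : ℕ) = c := ⟨⟨c, by omega⟩, rfl⟩
      choose t ht using fun a => hC.act_ext n j0 (x j0 a) (y j0 a) w
      have hw2 : z = ∑ a, t a • x j0 a := by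
        rw [hw, Finset.sum_eq_single j0]
        · exact Finset.sum_congr rfl fun a _ => ht a
        · intro j _ hne
          refine Finset.sum_eq_zero fun a _ => hC.act_ext_zero _ _ _ _ _ _ _ ?_
          intro h
          exact hne (Fin.ext (Prod.ext_iff.1 h).1.symm)
        · intro h
          exact absurd (Finset.mem_univ j0) h
      have hreg2 : ∑ a, (t a : W.K) • C.reg n j0 (x j0 a) = 0 := by
        rw [← hz, hw2, map_sum]
        refine Finset.sum_congr rfl fun a _ => ?_
        have := map_ratCast_smul (C.reg n j0) ℚ W.K (t a) (x j0 a)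
        rw [Rat.cast_id] at this
        exact this.symm
      have h0 := Fintype.linearIndependent_iff.1 (hx1 j0) _ hreg2
      rw [hw2]
      refine Finset.sum_eq_zero fun a _ => ?_
      have : t a = 0 := by exact_mod_cast h0 a
      rw [this, zero_smul]
    · rw [hw]
      refine Finset.sum_eq_zero fun j _ => Finset.sum_eq_zero fun a _ =>
        hC.act_ext_zero _ _ _ _ _ _ _ ?_
      intro h
      have h1 := (Prod.ext_iff.1 h).1
      have h2 := j.2
      simp only at h1
      omega
  · obtain ⟨w, hw⟩ := main c r' z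
    rw [hact] at hw
    rw [hw]
    refine Finset.sum_eq_zero fun j _ => Finset.sum_eq_zero fun a _ =>
      hC.act_ext_zero _ _ _ _ _ _ _ ?_
    intro h
    have h1 := (Prod.ext_iff.1 h).2
    simp only at h1
    omega

end Pool.Agent.E8helper1.TB
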