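import Pool.Agent.E8helper1.TB.Pub
import Pool.Agent.E8helper1.TB.Alg

/-!
# Dual bases of the spaces of cycle classes
-/

open CategoryTheory AlgebraicGeometry

universe u

namespace Pool.Agent.E8helper1.TB

open Module
open Pool.Agent.H914 Pool.Agent.H914.VarClass Pool.Agent.H914.VarClass.Obj
  Pool.Agent.H914.WeilCohomology
open Pool.Agent.Y129 (pw)
open Pool.Agent.E8helper1.TP (Gal hdim alg)
open Pool.Agent.E8helper1.TPQ (IsFrobenius HomNum IsRational)

variable {k : Type u} [Field k] {𝒱 : VarClass k} {ops : CycleOps 𝒱}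
  {W : WeilCohomology.{u, 0} ops} {X : 𝒱.Obj}

theorem alg_gr {Z : 𝒱.Obj} {j : ℕ} {c : W.H Z} (hc : c ∈ alg W Z j) : c ∈ W.gr Z (2 * j) := by
  obtain ⟨z, hz, rfl⟩ := hc
  exact W.cl_mem hz

theorem tr_rat {Z : 𝒱.Obj} {j : ℕ} (hj : j ≤ Z.dim) {c c' : W.H Z} (hc : c ∈ alg W Z j)
    (hc' : c' ∈ alg W Z (Z.dim - j)) : ∃ t : ℚ, W.tr Z (c' * c) = (t : W.K) := by
  obtain ⟨z, hz, rfl⟩ := hc
  obtain ⟨z', hz', rfl⟩ := hc'
  have h := ops.mul_mem hz' hz
  rw [Nat.sub_add_cancel hj] at h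
  exact ⟨_, by rw [← W.cl_mul, W.tr_cl h]⟩

theorem comm_even {Z : 𝒱.Obj} {i j : ℕ} {a b : W.H Z} (ha : a ∈ W.gr Z (2 * i))
    (hb : b ∈ W.gr Z (2 * j)) : a * b = b * a := by
  rw [W.comm ha hb, Even.neg_one_pow ⟨i * (2 * j), by ring⟩, one_smul]

/-- Dual bases. -/
theorem exists_dual_classes {Z : 𝒱.Obj} (hH : HomNum W Z) {j : ℕ} (hj : j ≤ Z.dim) :
    ∃ (r : ℕ) (c : Fin r → W.H Z) (y : Fin r → W.H Z), LinearIndependent W.K c ∧
      (∀ a, c a ∈ alg W Z j) ∧ (∀ a, y a ∈ alg W Z (Z.dim - j)) ∧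
      alg W Z j = {x | ∃ a : Fin r → ℚ, x = ∑ i, (a i : W.K) • c i} ∧
      ∀ a b, W.tr Z (y a * c b) = if b = a then 1 else 0 := by
  classical
  obtain ⟨⟨r, c, hc1, hc2⟩, hc3⟩ := hH j
  obtain ⟨⟨s, c', hc1', hc2'⟩, -⟩ := hH (Z.dim - j)
  have hmem : ∀ a, c a ∈ alg W Z j := by
    intro a
    rw [hc2]
    refine ⟨Pi.single a 1, ?_⟩
    rw [Finset.sum_eq_single a]
    · rw [Pi.single_eq_same, Rat.cast_one, one_smul]
    · intro b _ hb
      rw [Pi.single_eq_of_ne hb, Rat.cast_zero, zero_smul]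
    · intro h
      exact absurd (Finset.mem_univ a) h
  have hmem' : ∀ a, c' a ∈ alg W Z (Z.dim - j) := by
    intro a
    rw [hc2']
    refine ⟨Pi.single a 1, ?_⟩
    rw [Finset.sum_eq_single a]
    · rw [Pi.single_eq_same, Rat.cast_one, one_smul]
    · intro b _ hb
      rw [Pi.single_eq_of_ne hb, Rat.cast_zero, zero_smul]
    · intro h
      exact absurd (Finset.mem_univ a) h
  choose P hP using fun (a : Fin s) (b : Fin r) => tr_rat hj (hmem b) (hmem' a)
  have hker : ∀ x : Fin r → ℚ, (∀ a, ∑ b, P a b * x b = 0) → x = 0 := by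
    intro x hx
    have he : ∑ i, (x i : W.K) • c i ∈ alg W Z j := by
      rw [hc2]
      exact ⟨x, rfl⟩
    have h0 : ∑ i, (x i : W.K) • c i = 0 := by
      refine hc3 _ he fun i e' he' => ?_
      by_cases hi : i = Z.dim - j
      · subst hi
        rw [comm_even (alg_gr he) (alg_gr he')]
        rw [hc2'] at he'
        obtain ⟨m, rfl⟩ := he'
        rw [Finset.sum_mul, map_sum]
        refine Finset.sum_eq_zero fun a _ => ?_
        rw [smul_mul_assoc, map_smul, Finset.mul_sum, map_sum]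
        have h1 : ∑ b, W.tr Z (c' a * ((x b : W.K) • c b)) =
            ((∑ b, P a b * x b : ℚ) : W.K) := by
          rw [Rat.cast_sum]
          refine Finset.sum_congr rfl fun b _ => ?_
          rw [mul_smul_comm, map_smul, hP, smul_eq_mul, Rat.cast_mul, mul_comm]
        rw [h1, hx a, Rat.cast_zero, smul_zero]
      · refine W.tr_eq_zero (W.mul_mem (alg_gr he) (alg_gr he')) ?_
        omega
    have h2 := Fintype.linearIndependent_iff.1 hc1 _ h0
    funext b
    have := h2 b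
    exact_mod_cast this
  choose m hm using exists_dual P hker
  refine ⟨r, c, fun b => ∑ a, (m b a : W.K) • c' a, hc1, hmem, fun b => ?_, hc2, fun b b' => ?_⟩
  · rw [hc2']
    exact ⟨m b, rfl⟩
  · rw [Finset.sum_mul, map_sum]
    have h1 : ∑ a, W.tr Z ((m b a : W.K) • c' a * c b') = ((∑ a, m b a * P a b' : ℚ) : W.K) := by
      rw [Rat.cast_sum]
      refine Finset.sum_congr rfl fun a _ => ?_
      rw [smul_mul_assoc, map_smul, hP, smul_eq_mul, Rat.cast_mul]
    rw [h1, hm b b']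
    split_ifs <;> simp

/-- The group generated by a power of a generator has finite index. -/
theorem zpowers_finiteIndex {Γ : Type} [Group Γ] {γ : Γ} (hγ : ∀ g, g ∈ Subgroup.zpowers γ)
    {s : ℕ} (hs : 1 ≤ s) : (Subgroup.zpowers (γ ^ s)).FiniteIndex := by
  have : Finite (Γ ⧸ Subgroup.zpowers (γ ^ s)) := by
    refine Finite.of_surjective (fun i : Fin s => ((γ ^ (i : ℕ) : Γ) : Γ ⧸ Subgroup.zpowers (γ ^ s)))
      fun x => ?_
    obtain ⟨g, rfl⟩ := QuotientGroup.mk_surjective x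
    obtain ⟨m, rfl⟩ := Subgroup.mem_zpowers_iff.1 (hγ g)
    have hs' : (s : ℤ) ≠ 0 := by exact_mod_cast (by omega : s ≠ 0)
    have h1 : 0 ≤ m % s := Int.emod_nonneg _ hs'
    have h2 : m % s < s := Int.emod_lt_of_pos _ (by exact_mod_cast hs)
    refine ⟨⟨(m % s).toNat, by omega⟩, ?_⟩
    refine (QuotientGroup.eq).2 ?_
    refine Subgroup.mem_zpowers_iff.2 ⟨m / s, ?_⟩
    rw [← zpow_natCast γ s, ← zpow_mul, ← zpow_natCast γ, ← zpow_neg, ← zpow_add]
    congr 1
    have h3 := Int.emod_add_mul_ediv m s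
    change (s : ℤ) * (m / s) = -(((m % s).toNat : ℕ) : ℤ) + m
    rw [Int.toNat_of_nonneg h1]
    omega
  exact Subgroup.finiteIndex_of_finite_quotient

/-- The eigenvectors of a power of the Frobenius are Tate classes. -/
theorem mem_tate (G : Gal W X) {q : ℕ} {γ : G.Γ} (hF : IsFinite G q γ) {n s j : ℕ} (hs : 1 ≤ s)
    {h : W.H (pw X n)} (hh : h ∈ W.gr (pw X n) (2 * j))
    (he : G.ρ n (γ ^ s) h = ((q : W.K) ^ (s * j)) • h) : h ∈ G.tate n j := by
  have A := G.act n
  refine ⟨hh, Subgroup.zpowers (γ ^ s), zpowers_finiteIndex hF.gen hs, ?_⟩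
  have hchi : ∀ m : ℕ, G.χ (γ ^ m) = (q : W.K) ^ m := by
    intro m
    induction m with
    | zero => rw [pow_zero, pow_zero, A.chi_one]
    | succ m ih => rw [pow_succ, pow_succ, A.chi_mul, ih, hF.chi]
  have hne : ∀ g, G.χ g ≠ 0 := by
    intro g h0
    have h1 : G.χ (g * g⁻¹) = 1 := by rw [mul_inv_cancel, A.chi_one]
    rw [A.chi_mul, h0, zero_mul] at h1
    exact zero_ne_one h1
  let S : Subgroup G.Γ :=
    { carrier := {g | G.ρ n g h = G.χ g ^ j • h}
      one_mem' := by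
        change G.ρ n 1 h = G.χ 1 ^ j • h
        rw [A.one, A.chi_one, one_pow, one_smul]
      mul_mem' := by
        intro g g' hg hg'
        change G.ρ n (g * g') h = G.χ (g * g') ^ j • h
        change G.ρ n g h = G.χ g ^ j • h at hg
        change G.ρ n g' h = G.χ g' ^ j • h at hg'
        rw [A.comp, hg', A.smul, hg, smul_smul, A.chi_mul, mul_pow, mul_comm]
      inv_mem' := by
        intro g hg
        change G.ρ n g⁻¹ h = G.χ g⁻¹ ^ j • h
        change G.ρ n g h = G.χ g ^ j • h at hg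
        have h1 : G.ρ n g⁻¹ (G.ρ n g h) = h := by
          rw [← A.comp, inv_mul_cancel, A.one]
        rw [hg, A.smul] at h1
        have h2 : G.χ g⁻¹ * G.χ g = 1 := by rw [← A.chi_mul, inv_mul_cancel, A.chi_one]
        conv_rhs => rw [← h1]
        rw [smul_smul, ← mul_pow, h2, one_pow, one_smul] }
  have hS : Subgroup.zpowers (γ ^ s) ≤ S := by
    rw [Subgroup.zpowers_le]
    change G.ρ n (γ ^ s) h = G.χ (γ ^ s) ^ j • h
    rw [he, hchi, ← pow_mul]
  exact fun g hg => hS hg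

end Pool.Agent.E8helper1.TB
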