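import Pool.Agent.E8helper1.TB.Pub

/-!
# Weil-étale motivic cohomology of the powers of a variety over a finite field: definitions
-/

open CategoryTheory AlgebraicGeometry

universe u

namespace Pool.Agent.E8helper1.TB

open Pool.Agent.H914 Pool.Agent.H914.VarClass Pool.Agent.H914.VarClass.Obj
  Pool.Agent.H914.WeilCohomology
open Pool.Agent.Y129 (pw)
open Pool.Agent.E8helper1.TP (Gal hdim alg)
open Pool.Agent.E8helper1.TPQ (HomNum)
open Pool.Agent.E8helper1.TPS (StrongTate)

variable {k : Type u} [Field k] {𝒱 : VarClass k} {ops : CycleOps 𝒱}
  {W : WeilCohomology.{u, 0} ops} {X : 𝒱.Obj}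

/-- The conjectures of Tate, Beilinson and Parshin for `pw X n`: the Tate classes are linear
combinations of algebraic classes, rational, homological and numerical equivalence are equal for cycles
with rational coefficients (and the tensor product of the group of the cycle classes with the
coefficient field embeds into the cohomology), and the higher Chow groups are torsion. -/
def TateBeilinson (G : Gal W X) (C : Chow W X) (n : ℕ) : Prop :=
  G.TateConj n ∧ HomNum W (pw X n) ∧ C.RatHom n ∧ C.Parshin n

/-- The groups `E s c i`, for `s ≥ 1`, are all finitely generated. -/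
def AllFG (E : ℕ → ℕ → ℤ → Type) [∀ s c i, AddCommGroup (E s c i)] : Prop :=
  ∀ s c i, 1 ≤ s → AddGroup.FG (E s c i)

/-- The theorems of Geisser (and Kahn) on the Weil-étale motivic cohomology groups
`E n s c i = H^i_W(Y_s, ℤ(c))` of the variety `Y = X^(n+1)` over the field `𝔽_(q^s)`. They are
finitely generated for all `s`, `c`, `i` if the conjectures of Tate, Beilinson and Parshin are true for
`Y` and the Galois representation on the cohomology of `X` (and so that on the cohomology of `Y`) is
semisimple; conversely, if they are finitely generated for all `s`, `c`, `i`, then the strong form of the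
Tate conjecture is true for `Y`, and rational and homological equivalence are equal on `Y`. -/
structure IsWeilEtale (G : Gal W X) (C : Chow W X) (E : ℕ → ℕ → ℕ → ℤ → Type)
    [∀ n s c i, AddCommGroup (E n s c i)] : Prop where
  fg : ∀ n, G.Semisimple → TateBeilinson G C n → AllFG (E n)
  of_fg : ∀ n, AllFG (E n) → StrongTate G n ∧ C.RatHom n

end Pool.Agent.E8helper1.TB
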