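import Pool.Agent.E8helper1.TB.Core
import Pool.Agent.E8helper1.TB.WE
import Pool.Agent.E8helper1.TPS.Conv
import Pool.Agent.E8helper1.TS.AvgP
import Pool.Agent.E8helper77.TS.Soc

/-!
# One power decides the conjectures of Tate, Beilinson and Parshin for all powers
-/

open CategoryTheory AlgebraicGeometry

universe u

namespace Pool.Agent.E8helper1.TB

open Module
open Pool.Agent.H914 Pool.Agent.H914.VarClass Pool.Agent.H914.VarClass.Obj
  Pool.Agent.H914.WeilCohomology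
open Pool.Agent.Y129 (pw)
open Pool.Agent.E8helper1.TP (Gal hdim alg)
open Pool.Agent.E8helper1.TPQ (Frobenii HomNum exponent)
open Pool.Agent.E8helper1.TPS (StrongTate)

variable {k : Type u} [Field k] {𝒱 : VarClass k} {ops : CycleOps 𝒱}
  {W : WeilCohomology.{u, 0} ops} {X : 𝒱.Obj}

theorem lt_exponent {b : ℕ} (hb : 0 < b) (d : ℕ) : b < exponent b d := by
  have h1 : 1 ≤ ((2 * d + 1) * b.factorial) ^ (b - 1) :=
    Nat.succ_le_of_lt (Nat.pow_pos (Nat.mul_pos (by omega) (Nat.factorial_pos _)))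
  have h2 : b ≤ b.factorial := Nat.self_le_factorial b
  have h3 : b.factorial * 1 ≤ b.factorial * ((2 * d + 1) * b.factorial) ^ (b - 1) :=
    Nat.mul_le_mul_left _ h1
  rw [exponent]
  omega

/-- **One power decides all powers.** -/
theorem one_power {ℓ : ℕ} [Fact ℓ.Prime] (φ : W.K ≃+* ℚ_[ℓ]) (hX : 0 < hdim W X)
    (G : Gal W X) (hG : Frobenii G φ) (C : Chow W X) {q : ℕ} {γ : G.Γ} (hF : IsFinite G q γ)
    (hC : IsChow G C q γ) (M : ℕ) (hM : M = exponent (hdim W X) X.dim) (m : ℕ) (hm : M ≤ m)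
    (hlog : (hdim W X : ℝ) ^ 3 * (M : ℝ) ^ 2 * Real.log (2 * hdim W X * M + 1) ≤ m)
    (hT : StrongTate G (2 * m - 1) ∨ G.Semisimple ∧ G.TateConj (2 * m - 1))
    (hK : C.RatHom (2 * m - 1) ∨ C.Nilpotence) :
    G.Semisimple ∧ ∀ n, TateBeilinson G C n := by
  obtain ⟨hss, hHN, N, -, -, -, hN, hN1⟩ := TPS.tate_lawS Pool.Agent.E8helper77.TS.t_SOC
    TS.t_AVG φ hX G hG M hM m hm hT
  have hT' : ∀ n, G.TateConj n := hN.1 (hN1 hlog)
  have hnil : C.Nilpotence := by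
    rcases hK with h | h
    · refine hC.kimura m ?_ h
      have := lt_exponent hX X.dim
      omega
    · exact h
  refine ⟨hss, fun n => ?_⟩
  obtain ⟨h1, h2⟩ := core G C hC hF hnil (hT' n) (hHN n)
  exact ⟨hT' n, hHN n, h1, h2⟩

/-- **Lichtenbaum's conjecture for one power implies it for all powers.** -/
theorem one_power_fg {ℓ : ℕ} [Fact ℓ.Prime] (φ : W.K ≃+* ℚ_[ℓ]) (hX : 0 < hdim W X)
    (G : Gal W X) (hG : Frobenii G φ) (C : Chow W X) {q : ℕ} {γ : G.Γ} (hF : IsFinite G q γ)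
    (hC : IsChow G C q γ) (E : ℕ → ℕ → ℕ → ℤ → Type) [∀ n s c i, AddCommGroup (E n s c i)]
    (hE : IsWeilEtale G C E) (M : ℕ) (hM : M = exponent (hdim W X) X.dim) (m : ℕ) (hm : M ≤ m)
    (hlog : (hdim W X : ℝ) ^ 3 * (M : ℝ) ^ 2 * Real.log (2 * hdim W X * M + 1) ≤ m)
    (hT : AllFG (E (2 * m - 1)) ∨
      (StrongTate G (2 * m - 1) ∨ G.Semisimple ∧ G.TateConj (2 * m - 1)) ∧
        (C.RatHom (2 * m - 1) ∨ C.Nilpotence)) :
    G.Semisimple ∧ ∀ n, TateBeilinson G C n ∧ AllFG (E n) := by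
  obtain ⟨h1, h2⟩ : (StrongTate G (2 * m - 1) ∨ G.Semisimple ∧ G.TateConj (2 * m - 1)) ∧
      (C.RatHom (2 * m - 1) ∨ C.Nilpotence) := by
    rcases hT with h | h
    · obtain ⟨h3, h4⟩ := hE.of_fg _ h
      exact ⟨Or.inl h3, Or.inl h4⟩
    · exact h
  obtain ⟨h3, h4⟩ := one_power φ hX G hG C hF hC M hM m hm hlog h1 h2
  exact ⟨h3, fun n => ⟨h4 n, hE.fg n h3 (h4 n)⟩⟩

end Pool.Agent.E8helper1.TB
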