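import Pool.Agent.E8helper1.TPS.Pub

/-!
# Higher Chow groups and correspondences of the powers of a variety over a finite field: definitions
-/

open CategoryTheory AlgebraicGeometry

universe u

namespace Pool.Agent.E8helper1.TB

open Pool.Agent.H914 Pool.Agent.H914.VarClass Pool.Agent.H914.VarClass.Obj
  Pool.Agent.H914.WeilCohomology
open Pool.Agent.Y129 (pw)
open Pool.Agent.E8helper1.TP (Gal hdim alg)
open Pool.Agent.E8helper1.TPQ (IsFrobenius)

variable {k : Type u} [Field k] {𝒱 : VarClass k} {ops : CycleOps 𝒱}

/-- The data of the higher Chow groups and of the correspondences of the products `pw X n` of `n + 1`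
copies of `X`, with rational coefficients. -/
structure Chow (W : WeilCohomology.{u, 0} ops) (X : 𝒱.Obj) where
  /-- `M n c r` is the higher Chow group `CH^c(X^(n+1), r) ⊗ ℚ` -/
  M : ℕ → ℕ → ℕ → Type
  [grp : ∀ n c r, AddCommGroup (M n c r)]
  [mod : ∀ n c r, Module ℚ (M n c r)]
  /-- `A n` is the ring of the correspondences of degree zero `CH^d(X^(n+1) × X^(n+1)) ⊗ ℚ` -/
  A : ℕ → Type
  [ring : ∀ n, Ring (A n)]
  [algebra : ∀ n, Algebra ℚ (A n)]
  /-- the action of the correspondences on the higher Chow groups -/
  act : ∀ n c r, A n →ₐ[ℚ] Module.End ℚ (M n c r)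
  /-- the action of the correspondences on the cohomology -/
  real : ∀ n, A n →+* Module.End W.K (W.H (pw X n))
  /-- the cycle map `CH^c(X^(n+1)) ⊗ ℚ → H^(2 c)(X^(n+1))` -/
  reg : ∀ n c, M n c 0 →+ W.H (pw X n)
  /-- the exterior product of a cycle of codimension `j` and a cycle of dimension `j` -/
  ext : ∀ n j, M n j 0 → M n ((pw X n).dim - j) 0 → A n
  /-- the correspondence given by the Frobenius endomorphism -/
  F : ∀ n, A n

attribute [instance] Chow.grp Chow.mod Chow.ring Chow.algebra

variable {W : WeilCohomology.{u, 0} ops} {X : 𝒱.Obj}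

/-- Rational and homological equivalence are equal on `pw X n`: the cycle maps are injective. -/
def Chow.RatHom (C : Chow W X) (n : ℕ) : Prop := ∀ c, Function.Injective (C.reg n c)

/-- Homologically trivial correspondences are nilpotent, for all powers of `X`. -/
def Chow.Nilpotence (C : Chow W X) : Prop := ∀ n, ∀ a : C.A n, C.real n a = 0 → IsNilpotent a

/-- The higher Chow groups of `pw X n` are torsion. -/
def Chow.Parshin (C : Chow W X) (n : ℕ) : Prop := ∀ c r, 1 ≤ r → ∀ z : C.M n c r, z = 0

/-- The ground field is the algebraic closure of the field `𝔽_q` over which `X` is defined, and `γ` is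
the Frobenius, which generates the group (the Weil group): for all `s ≥ 1` its power `γ ^ s` has on all
powers of `X` the properties of the geometric Frobenius of `𝔽_(q ^ s)`. -/
structure IsFinite (G : Gal W X) (q : ℕ) (γ : G.Γ) : Prop where
  prime_pow : IsPrimePow q
  gen : ∀ g, g ∈ Subgroup.zpowers γ
  chi : G.χ γ = q
  frob : ∀ s, 1 ≤ s → ∀ n, IsFrobenius (W.gr (pw X n)) (q ^ s) (G.ρ n (γ ^ s))

/-- The known properties of the higher Chow groups and of the correspondences of the powers of a
variety over the algebraic closure of a finite field: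

* the images of the cycle maps consist of the classes of the algebraic cycles (`range`);
* the action of correspondences commutes with the cycle maps (`reg_act`);
* the correspondence `F` acts on the cohomology as the Frobenius `γ` (`frob`);
* every element is defined over a finite field `𝔽_(q^s)`, thus the Frobenius `F ^ s` acts on elements of
  codimension `c` by `q ^ (s c)` (`fix`, `fix_ext`);
* the correspondence `x × y` acts on the cohomology by `h ↦ tr (y h) x` (`real_ext`), maps every
  element of `CH^j ⊗ ℚ` to a rational multiple of `x ∈ CH^j ⊗ ℚ` (`act_ext`), and is zero on all other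
  higher Chow groups, as the higher rational `K`-groups of finite fields vanish (`act_ext_zero`;
  Quillen);
* if rational and homological equivalence are equal on one power `X ^ (2 m)`, where `m` is greater than
  the dimension of the cohomology of `X`, the homologically trivial correspondences on all powers are
  nilpotent (`kimura`; the motive of `X` is finite-dimensional, Kimura). -/
structure IsChow (G : Gal W X) (C : Chow W X) (q : ℕ) (γ : G.Γ) : Prop where
  range : ∀ n c, Set.range (C.reg n c) = alg W (pw X n) c
  reg_act : ∀ n c a x, C.reg n c (C.act n c 0 a x) = C.real n a (C.reg n c x)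
  frob : ∀ n x, C.real n (C.F n) x = G.ρ n γ x
  fix : ∀ n c r (z : C.M n c r), ∃ s, 1 ≤ s ∧
    C.act n c r (C.F n ^ s) z = (q : ℚ) ^ (s * c) • z
  fix_ext : ∀ n j x y, ∃ s, 1 ≤ s ∧
    C.F n ^ s * C.ext n j x y = (q : ℚ) ^ (s * j) • C.ext n j x y ∧
    C.ext n j x y * C.F n ^ s = (q : ℚ) ^ (s * j) • C.ext n j x y
  real_ext : ∀ n j x y h, C.real n (C.ext n j x y) h =
    W.tr (pw X n) (C.reg n _ y * h) • C.reg n j x
  act_ext : ∀ n j x y z, ∃ t : ℚ, C.act n j 0 (C.ext n j x y) z = t • x
  act_ext_zero : ∀ n j c r x y (z : C.M n c r), (c, r) ≠ (j, 0) →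
    C.act n c r (C.ext n j x y) z = 0
  kimura : ∀ m, hdim W X < m → C.RatHom (2 * m - 1) → C.Nilpotence

end Pool.Agent.E8helper1.TB
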